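import Mathlib
import Pool.Agent.H854R3.CR.Stmts
import Pool.Agent.H67.PI.Lin

set_option autoImplicit false

namespace Pool.Agent.H92R3.CR

open Pool.Agent.H854R3.NE Pool.Agent.H854R3.CR

theorem val_congr (t : RTerm) : ∃ n : ℕ, ∀ (R : Type) [NonUnitalRing R] (v v' : ℕ → R),
    (∀ i < n, v i = v' i) → t.val v = t.val v' := by
  induction t with
  | var i => exact ⟨i + 1, fun R _ v v' h => h i (Nat.lt_succ_self i)⟩
  | zero => exact ⟨0, fun R _ v v' h => rfl⟩
  | neg s ih =>
    obtain ⟨n, hn⟩ := ih
    exact ⟨n, fun R _ v v' h => by simp only [RTerm.val]; rw [hn R v v' h]⟩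
  | add s t ih1 ih2 =>
    obtain ⟨n, hn⟩ := ih1
    obtain ⟨m, hm⟩ := ih2
    refine ⟨max n m, fun R _ v v' h => ?_⟩
    simp only [RTerm.val]
    rw [hn R v v' (fun i hi => h i (lt_max_of_lt_left hi)),
      hm R v v' (fun i hi => h i (lt_max_of_lt_right hi))]
  | mul s t ih1 ih2 =>
    obtain ⟨n, hn⟩ := ih1
    obtain ⟨m, hm⟩ := ih2
    refine ⟨max n m, fun R _ v v' h => ?_⟩
    simp only [RTerm.val]
    rw [hn R v v' (fun i hi => h i (lt_max_of_lt_left hi)),
      hm R v v' (fun i hi => h i (lt_max_of_lt_right hi))]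

/-- product of a nonempty list -/
def np {S : Type} [NonUnitalRing S] : List S → S
  | [] => 0
  | [x] => x
  | x :: y :: l => x * np (y :: l)

theorem np_inr {S : Type} [NonUnitalRing S] (K : Type) [CommRing K] [Module K S]
    [IsScalarTower K S S] [SMulCommClass K S S] :
    ∀ l : List S, l ≠ [] → (l.map (Unitization.inr : S → Unitization K S)).prod =
      (Unitization.inr (np l) : Unitization K S)
  | [], h => absurd rfl h
  | [x], _ => by simp [np]
  | x :: y :: l, _ => by
    have e : np (x :: y :: l) = x * np (y :: l) := rfl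
    rw [List.map_cons, List.prod_cons, np_inr K (y :: l) (List.cons_ne_nil _ _), e,
      Unitization.inr_mul]

/-- value of the polynomial of a term -/
theorem lift_val {S : Type} [NonUnitalRing S] (K : Type) [CommRing K] [Module K S]
    [IsScalarTower K S S] [SMulCommClass K S S] (n : ℕ) (s : Fin n → S) (t : RTerm) :
    FreeAlgebra.lift K (fun i => (s i : Unitization K S))
      (t.val (fun i => if h : i < n then FreeAlgebra.ι K (⟨i, h⟩ : Fin n) else 0)) =
      ((t.val (fun i => if h : i < n then s ⟨i, h⟩ else 0) : S) : Unitization K S) := by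
  let f : FreeAlgebra K (Fin n) →ₙ+* Unitization K S :=
    ((FreeAlgebra.lift K (fun i => (s i : Unitization K S)) :
      FreeAlgebra K (Fin n) →ₐ[K] Unitization K S) : FreeAlgebra K (Fin n) →+* Unitization K S)
  let g : S →ₙ+* Unitization K S :=
    { toFun := Unitization.inr
      map_mul' := fun a b => Unitization.inr_mul K a b
      map_zero' := Unitization.inr_zero K
      map_add' := fun a b => Unitization.inr_add K a b }
  have h1 := val_map f (fun i => if h : i < n then FreeAlgebra.ι K (⟨i, h⟩ : Fin n) else 0) t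
  have h2 := val_map g (fun i => if h : i < n then s ⟨i, h⟩ else 0) t
  refine h1.trans (Eq.trans ?_ h2.symm)
  congr 1
  funext i
  by_cases h : i < n
  · simp only [h, dif_pos]
    exact FreeAlgebra.lift_ι_apply _ _
  · simp only [h, dif_neg, not_false_iff]
    rw [map_zero, map_zero]

theorem smul_facts {p : ℕ} [hp : Fact p.Prime] (P : Type) [NonUnitalRing P]
    (hpP : ∀ x : P, p • x = 0) : ∃ _ : Module (ZMod p) P, IsScalarTower (ZMod p) P P ∧
      SMulCommClass (ZMod p) P P := by
  let iM : Module (ZMod p) P := AddCommGroup.zmodModule hpP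
  have hsm : ∀ (c : ZMod p), ∃ k : ℤ, ∀ z : P, c • z = k • z := by
    intro c
    obtain ⟨k, rfl⟩ := ZMod.intCast_surjective c
    exact ⟨k, fun z => Int.cast_smul_eq_zsmul (ZMod p) k z⟩
  refine ⟨iM, ?_, ?_⟩
  · constructor
    intro c a b
    obtain ⟨k, hk⟩ := hsm c
    rw [hk, smul_eq_mul, smul_eq_mul, hk, smul_mul_assoc]
  · constructor
    intro c a b
    obtain ⟨k, hk⟩ := hsm c
    rw [hk, smul_eq_mul, smul_eq_mul, hk, mul_smul_comm]

theorem taskLin : TaskLin := by
  intro p hp e R iR hpR hne S iS hpS hsat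
  obtain ⟨v, hv⟩ : ∃ v : ℕ → R, e.1.val v ≠ e.2.val v := by
    by_contra hcon
    push Not at hcon
    exact hne hcon
  obtain ⟨n1, hn1⟩ := val_congr e.1
  obtain ⟨n2, hn2⟩ := val_congr e.2
  set n := max n1 n2 with hn
  obtain ⟨iMR, iTR, iSR⟩ := smul_facts (p := p) R hpR
  obtain ⟨iMS, iTS, iSS⟩ := smul_facts (p := p) S hpS
  set x : ℕ → FreeAlgebra (ZMod p) (Fin n) := fun i =>
    if h : i < n then FreeAlgebra.ι (ZMod p) (⟨i, h⟩ : Fin n) else 0 with hx
  set w := e.1.val x - e.2.val x with hw
  have hw0 : w ≠ 0 := by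
    intro h0
    have h1 := lift_val (ZMod p) n (fun i : Fin n => v i) e.1
    have h2 := lift_val (ZMod p) n (fun i : Fin n => v i) e.2
    have h3 : FreeAlgebra.lift (ZMod p) (fun i : Fin n => (v i : Unitization (ZMod p) R)) w = 0 := by
      rw [h0, map_zero]
    rw [hw, map_sub, sub_eq_zero, h1, h2] at h3
    have h4 := Unitization.inr_injective h3
    apply hv
    rw [hn1 R v (fun i => if h : i < n then v i else 0), hn2 R v (fun i => if h : i < n then v i else 0)]
    · exact h4
    · intro i hi
      have : i < n := lt_max_of_lt_right hi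
      simp [this]
    · intro i hi
      have : i < n := lt_max_of_lt_left hi
      simp [this]
  let T : Submodule (ZMod p) (Unitization (ZMod p) S) :=
    { carrier := {z | ∃ a : S, (a : Unitization (ZMod p) S) = z}
      add_mem' := by
        rintro _ _ ⟨a, rfl⟩ ⟨b, rfl⟩
        exact ⟨a + b, Unitization.inr_add _ a b⟩
      zero_mem' := ⟨0, Unitization.inr_zero _⟩
      smul_mem' := by
        rintro c _ ⟨a, rfl⟩
        exact ⟨c • a, Unitization.inr_smul _ c a⟩ }
  obtain ⟨d, c, hc1, hc⟩ := Pool.Agent.H67.PI.linearise T w hw0 (by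
    intro a ha
    choose s hs using ha
    have h1 := lift_val (ZMod p) n s e.1
    have h2 := lift_val (ZMod p) n s e.2
    have h3 : a = fun i => (s i : Unitization (ZMod p) S) := funext fun i => (hs i).symm
    rw [h3, hw, map_sub, sub_eq_zero, h1, h2, hsat])
  have hd : d ≠ 0 := by
    rintro rfl
    have h1 := hc (fun i => i.elim0) (fun i => i.elim0)
    rw [Fintype.sum_unique] at h1
    have h2 : (default : Equiv.Perm (Fin 0)) = 1 := rfl
    rw [h2, hc1, List.ofFn_zero, List.prod_nil, one_smul] at h1
    exact one_ne_zero h1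
  refine ⟨d, fun π => ((c π).val : ℤ), 1, ?_, ?_⟩
  · have : Fact (1 < p) := ⟨hp.out.one_lt⟩
    change (((c 1).val : ℕ) : ℤ) = 1
    rw [hc1, ZMod.val_one]
    rfl
  · intro a ha
    choose s hs using ha
    have ha' : a = fun i => (s i : Unitization ℤ S) := funext fun i => (hs i).symm
    have hne' : ∀ π : Equiv.Perm (Fin d), List.ofFn (fun k => s (π k)) ≠ [] := by
      intro π h
      rw [List.ofFn_eq_nil_iff] at h
      exact hd h
    have e1 : ∀ π : Equiv.Perm (Fin d), (List.ofFn fun k => a (π k)).prod =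
        (Unitization.inr (np (List.ofFn fun k => s (π k))) : Unitization ℤ S) := by
      intro π
      rw [← np_inr ℤ _ (hne' π), List.map_ofFn, ha']
      rfl
    have e2 : ∀ π : Equiv.Perm (Fin d),
        (List.ofFn fun k => ((s (π k) : S) : Unitization (ZMod p) S)).prod =
        (Unitization.inr (np (List.ofFn fun k => s (π k))) : Unitization (ZMod p) S) := by
      intro π
      rw [← np_inr (ZMod p) _ (hne' π), List.map_ofFn]
      rfl
    have h1 := hc (fun i => (s i : Unitization (ZMod p) S)) (fun i => ⟨s i, rfl⟩)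
    simp only [e2] at h1
    have h2 : ∑ π, c π • np (List.ofFn fun k => s (π k)) = 0 := by
      apply Unitization.inr_injective (R := ZMod p)
      rw [Unitization.inr_zero, ← h1]
      rw [show (Unitization.inr (∑ π, c π • np (List.ofFn fun k => s (π k))) :
        Unitization (ZMod p) S) = Unitization.inrNonUnitalAlgHom (ZMod p) S
          (∑ π, c π • np (List.ofFn fun k => s (π k))) from rfl, map_sum]
      refine Finset.sum_congr rfl fun π _ => ?_
      rw [map_smul]
      rfl
    simp only [e1]
    have h3 : ∑ π, ((c π).val : ℤ) •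
          (Unitization.inr (np (List.ofFn fun k => s (π k))) : Unitization ℤ S) =
        (Unitization.inr (∑ π, ((c π).val : ℤ) • np (List.ofFn fun k => s (π k))) :
          Unitization ℤ S) := by
      rw [show (Unitization.inr (∑ π, ((c π).val : ℤ) • np (List.ofFn fun k => s (π k))) :
        Unitization ℤ S) = Unitization.inrNonUnitalAlgHom ℤ S
          (∑ π, ((c π).val : ℤ) • np (List.ofFn fun k => s (π k))) from rfl, map_sum]
      refine Finset.sum_congr rfl fun π _ => ?_
      rw [map_smul]
      rfl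
    rw [h3]
    have h4 : ∀ π : Equiv.Perm (Fin d), ((c π).val : ℤ) • np (List.ofFn fun k => s (π k)) =
        c π • np (List.ofFn fun k => s (π k)) := by
      intro π
      have h5 := Int.cast_smul_eq_zsmul (ZMod p) ((c π).val : ℤ) (np (List.ofFn fun k => s (π k)))
      rw [← h5, Int.cast_natCast, ZMod.natCast_zmod_val]
    rw [Finset.sum_congr rfl fun π _ => h4 π, h2, Unitization.inr_zero]

end Pool.Agent.H92R3.CR
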